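import Pool.Agent.H97.S6.Inp
import Pool.Agent.H36.S6.ActE
import Pool.Agent.H71.SLP.Stmts
import Pool.Agent.H25.M5.H1F

/-!
# The rising case: time and activity

`TIMEStmt`: on a large event of a maximal family the time is full given the line. `H4Stmt`: the
activity of the base velocity given the exact point, on large events.
-/

set_option autoImplicit false

namespace Pool.S6N

open Finset Real
open Pool.Agent.H49.Ent Pool.Agent.H32.Dense Pool.STK Pool.KA Pool.KSAT Pool.K2S Pool.PB Pool.KS6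
  Pool.S6C Pool.Sel51

/-- **(TIME)** -/
theorem time_thm : TIMEStmt := by
  intro S a R h₁ i₀ c s₂ r D σ hC e he
  obtain ⟨J₁, hJ₁⟩ := exists_nat_ge (Real.log 4 / (e / 7))
  refine Clp.of (τ := e / 7) (by positivity) J₁ fun J hJ F A hA B hB hP => ?_
  obtain ⟨hTr, hMx, hRb, hPA⟩ := hC.st _ _ _ _ hA
  have h4 : Real.log 4 ≤ e / 7 * J := by
    have h5 : Real.log 4 / (e / 7) ≤ J := hJ₁.trans (by exact_mod_cast hJ)
    rw [div_le_iff₀ (by positivity)] at h5
    linarith
  have h6 : Real.exp (-(2 * (e / 7 * J))) ≤ Pe F.p B := by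
    have h7 : Real.exp (-(2 * (e / 7 * J))) ≤ Real.exp (-(e / 7 * J)) / 4 := by
      have h8 : Real.exp (-(e / 7 * J)) / 4 = Real.exp (-(e / 7 * J) - Real.log 4) := by
        rw [Real.exp_sub, Real.exp_log (by norm_num)]
      rw [h8]
      exact Real.exp_le_exp.2 (by linarith)
    linarith
  have hB0 : 0 < Pe F.p B := lt_of_lt_of_le (Real.exp_pos _) h6
  have h1 := Pool.STPA.sub_Tm_of_reg hTr hMx.1 hRb hB0 h6
  unfold Fam.Tm at h1
  have h2 : CH (Pool.FLF.Fam.sub F B hB0).p (Pool.FLF.Fam.sub F B hB0).T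
      (fun ω => ((Pool.FLF.Fam.sub F B hB0).l ω, (Pool.FLF.Fam.sub F B hB0).Z ω)) =
      CH (Pool.Agent.H49.Ent.cond F.p B True) F.T (fun ω => (F.l ω, F.Z ω)) :=
    Pool.FLF.sub_marg.CH F.T (fun ω => (F.l ω, F.Z ω))
  rw [h2] at h1
  linarith

/-- **(H4)** -/
theorem h4_thm : H4Stmt := by
  intro S a R h₁ i₀ c s₂ r D σ hC act K W v₁ t e₁ Q₀ P g v₀ v ρ a₀ α hL _ CZ hCZ
  have hl2 : 0 < Real.log 2 := Real.log_pos (by norm_num)
  have hα := hL.α0
  have hg := (hL.pr g hL.thk).half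
  have hP1 := (hL.pr P hL.row).lt1
  have hpos : ∀ (τ : ℝ) (J : ℕ) (F : Fam 3 J) (A : F.Ω → Prop), S.St τ J F A → 0 < Pe F.p A :=
    fun τ J F A hA => lt_of_lt_of_le (Real.exp_pos _) (hC.st _ _ _ _ hA).2.2.2
  obtain ⟨δ, hδ, hb⟩ := act_blk hpos hL.actN hL.amono hL.alip hL.aslp
    (ε := α * Real.log 2 / (4 * (CZ + 1))) (by positivity) (ϖ := 1 / 4) (by norm_num)
  refine ⟨min (δ / (CZ + 1)) (1 / (2 * (CZ + 1))), lt_min (by positivity) (by positivity),
    fun l hl hll => ?_⟩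
  have hl1 : (CZ + 1) * l ≤ δ := by
    have := hll.trans (min_le_left _ _)
    rw [le_div_iff₀ (by positivity)] at this
    linarith
  have hl3 : (CZ + 1) * l ≤ 1 / 2 := by
    have := hll.trans (min_le_right _ _)
    rw [le_div_iff₀ (by positivity)] at this
    linarith
  have h1 := hb ((CZ + 1) * l) (by positivity) hl1
  obtain ⟨J₁, hJ₁⟩ := exists_nat_ge (2 / l)
  refine Clp.mono (J₂ := J₁) h1 ?_
  intro J hJ F A hA B hB hP q X hX hq
  have hJl : 2 ≤ l * J := by
    have h5 : 2 / l ≤ J := hJ₁.trans (by exact_mod_cast hJ)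
    rw [div_le_iff₀ hl] at h5
    linarith
  have hJ0 : (0 : ℝ) ≤ J := Nat.cast_nonneg J
  have hX1 : (X : ℝ) ≤ l * J := by
    rw [hX]
    exact Nat.floor_le (by positivity)
  have hX2 : l * J < X + 1 := by
    rw [hX]
    exact Nat.lt_floor_add_one _
  have hX3 : l * J / 2 ≤ X := by linarith
  have hX0 : (0 : ℝ) ≤ X := Nat.cast_nonneg X
  have hq' := abs_le.1 hq
  have hlJ : 0 ≤ l * J := by positivity
  have e1 : (CZ + 1) * l * J = CZ * l * J + l * J := by ring
  have hq1 : q + X ≤ J := by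
    have h6 : ((P - g) + (CZ + 1) * l) * J ≤ 1 * J :=
      mul_le_mul_of_nonneg_right (by linarith) hJ0
    have h7 : ((q + X : ℕ) : ℝ) ≤ J := by
      push_cast
      nlinarith [hq'.2]
    exact_mod_cast h7
  have h8 := hA B hB (by linarith) q X hq1
    (by rw [e1]; exact hq.trans (by linarith))
    (by
      rw [e1, abs_le]
      push_cast
      constructor <;> linarith [hq'.1, hq'.2])
  have h9 := (abs_le.1 h8).1
  have e2 : α * Real.log 2 / (4 * (CZ + 1)) * ((CZ + 1) * l) * J = α * Real.log 2 / 4 * (l * J) := by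
    field_simp
  rw [e2] at h9
  have h10 : α * Real.log 2 / 4 * (l * J) ≤ α * Real.log 2 / 2 * X := by
    have : 0 ≤ α * Real.log 2 / 2 := by positivity
    nlinarith
  have h11 : CH (Pool.Agent.H49.Ent.cond F.p B True) (fun ω => F.D (q + X) ω i₀)
      (fun ω => (F.D q ω i₀, Fam.pt F ω)) = CH (Pool.Agent.H49.Ent.cond F.p B True)
        (fun ω => ⌊(2 : ℝ) ^ (q + X) * F.d ω i₀⌋) (pq F i₀ q) := rfl
  rw [h11] at h9
  have e3 : α * X * Real.log 2 = α * Real.log 2 / 2 * X + α / 2 * X * Real.log 2 := by ring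
  rw [e3] at h9
  linarith

end Pool.S6N
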